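import Pool.Agent.L7h16.AM.Fam

/-! An alternative for one statistic, one value and one error bound. -/

set_option autoImplicit false

open Set Filter Topology

namespace Pool.Agent.L7h16.AM

open Pool.Agent.Q205.Baire (Nice isClosed_F)

variable {M : Type*} [TopologicalSpace M]

theorem alt {B : ℝ → M → ℝ} (hB : Nice B) (c ε : ℝ) :
    ∃ U₁ U₂ : Set M, IsOpen U₁ ∧ IsOpen U₂ ∧ Disjoint U₁ U₂ ∧ Dense (U₁ ∪ U₂) ∧
      (∀ g ∈ U₁, ∃ V ∈ 𝓝 g, ∃ T0 : ℝ, ∀ g' ∈ V, ∀ T, T0 ≤ T → |B T g' - c| ≤ ε) ∧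
      ∀ᶠ g in residual M, g ∈ U₂ → ∀ T0 : ℝ, ∃ T, T0 ≤ T ∧ ε < |B T g - c| := by
  set Fn : ℕ → Set M := fun n => Pool.Agent.Q205.Baire.F B c ε ((n : ℝ) + 1) with hFn
  have hcl : ∀ n, IsClosed (Fn n) := fun n => isClosed_F hB c ε (by positivity)
  set U₁ : Set M := ⋃ n, interior (Fn n) with hU₁
  have hU₁o : IsOpen U₁ := isOpen_iUnion fun _ => isOpen_interior
  refine ⟨U₁, (closure U₁)ᶜ, hU₁o, isClosed_closure.isOpen_compl,
    disjoint_compl_right_iff_subset.2 subset_closure, ?_, ?_, ?_⟩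
  · rw [dense_iff_inter_open]
    intro U hU hne
    by_cases h : (U ∩ U₁).Nonempty
    · obtain ⟨g, hg, hg1⟩ := h
      exact ⟨g, hg, Or.inl hg1⟩
    · obtain ⟨g, hg⟩ := hne
      refine ⟨g, hg, Or.inr fun hc => ?_⟩
      rw [mem_closure_iff] at hc
      exact h (hc U hU hg)
  · intro g hg
    obtain ⟨n, hn⟩ := mem_iUnion.1 hg
    exact ⟨Fn n, mem_interior_iff_mem_nhds.1 hn, (n : ℝ) + 1, fun g' hg' => hg'⟩
  · have key : ∀ n : ℕ, ∀ᶠ g in residual M, g ∈ (closure U₁)ᶜ → g ∉ Fn n := by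
      intro n
      have ho : IsOpen ((Fn n)ᶜ ∪ U₁) := (hcl n).isOpen_compl.union hU₁o
      have hd : Dense ((Fn n)ᶜ ∪ U₁) := by
        rw [dense_iff_inter_open]
        intro W hW hne
        by_cases h : W ⊆ Fn n
        · obtain ⟨g, hg⟩ := hne
          exact ⟨g, hg, Or.inr (mem_iUnion.2 ⟨n, interior_maximal h hW hg⟩)⟩
        · obtain ⟨g, hg, hg1⟩ := not_subset.1 h
          exact ⟨g, hg, Or.inl hg1⟩
      filter_upwards [residual_of_dense_open ho hd] with g hg hgU hgF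
      rcases hg with h | h
      · exact h hgF
      · exact hgU (subset_closure h)
    filter_upwards [eventually_countable_forall.2 key] with g hg hgU T0
    obtain ⟨n, hn⟩ := exists_nat_ge T0
    have h1 := hg n hgU
    by_contra hcon
    push Not at hcon
    exact h1 fun T hT => hcon T (by linarith)

end Pool.Agent.L7h16.AM
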