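import Pool.Agent.L7h16.AM.Pack

/-! Comparison of the eigenvalues of two metrics on a closed surface. -/

set_option autoImplicit false

open Set Filter Topology MeasureTheory
open scoped Real ContDiff
open Pool.Agent.Y262.QE Pool.Agent.Y264.QR

noncomputable section

namespace Pool.Agent.L7h16.AM

open Pool.Agent.Results.MP_a825e8_mp.SurfacesLimitStatistics (IsEigenbasis)

/-- the charts of `D` with the coframes `A` -/
def met {M : Type} (D : Data M) (A : Fin D.N → ℂ → ℂ →L[ℝ] ℂ) : Data M where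
  N := D.N
  U := D.U
  φ := D.φ
  ψ := D.ψ
  A := A

/-- the metric with the coframes `A'` is at most `c ^ 2` times the metric with the coframes `A` -/
def Below {M : Type} (D : Data M) (c : ℝ) (A' A : Fin D.N → ℂ → ℂ →L[ℝ] ℂ) : Prop :=
  ∀ i, ∀ z ∈ D.T i, ∀ v, ‖A' i z v‖ ≤ c * ‖A i z v‖

section cmp

variable {M : Type} [MetricSpace M] [CompactSpace M] [MeasurableSpace M] [BorelSpace M] {D : Data M}
  {A A' : Fin D.N → ℂ → ℂ →L[ℝ] ℂ} {μ μ' : Measure M}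

theorem meas_le (S : (met D A).IsSurf μ) (S' : (met D A').IsSurf μ') {c : ℝ} (hc : 0 ≤ c) (h : Below D c A' A) :
    μ' ≤ ENNReal.ofReal (c ^ 2) • μ := by
  rw [Measure.le_iff]
  intro B hB
  rw [Measure.smul_apply, smul_eq_mul]
  have hcov : B = ⋃ i : Fin D.N, B ∩ (met D A).pc i := by
    ext x
    constructor
    · intro hx
      obtain ⟨i, hi⟩ := Pool.Agent.Y708.QE.pc_ex S x
      exact mem_iUnion.2 ⟨i, hx, hi⟩
    · intro hx
      obtain ⟨i, hi⟩ := mem_iUnion.1 hx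
      exact hi.1
  have hm : ∀ i, MeasurableSet (B ∩ (met D A).pc i) := fun i => hB.inter (Pool.Agent.Y708.QE.pc_meas S i)
  have hdis : Pairwise (Function.onFun Disjoint fun i : Fin D.N => B ∩ (met D A).pc i) := by
    intro i j hij
    rw [Function.onFun, Set.disjoint_left]
    rintro x ⟨-, hx⟩ ⟨-, hy⟩
    exact hij (Pool.Agent.Y708.QE.pc_disj hx hy)
  have e1 : ∀ ν : Measure M, ν B = ∑ i : Fin D.N, ν (B ∩ (met D A).pc i) := by
    intro ν
    conv_lhs => rw [hcov]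
    rw [measure_iUnion hdis hm, tsum_fintype]
  rw [e1 μ, e1 μ', Finset.mul_sum]
  refine Finset.sum_le_sum fun i _ => ?_
  have hs : B ∩ (met D A).pc i ⊆ D.U i := fun x hx => hx.2.1
  rw [S.area i _ hs (hm i), S'.area i _ hs (hm i), ← lintegral_const_mul' _ _ ENNReal.ofReal_ne_top]
  refine setLIntegral_mono' (Pool.Agent.Y960.QE.meas_im S i hs (hm i)) fun z hz => ?_
  obtain ⟨x, hx, rfl⟩ := hz
  have hT : D.φ i x ∈ D.T i := ⟨x, hs hx, rfl⟩
  rw [← ENNReal.ofReal_mul (by positivity)]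
  exact ENNReal.ofReal_le_ofReal (det_le (S.det i _ hT) hc (h i _ hT))

theorem gr_comb (S : (met D A).IsSurf μ) (S' : (met D A').IsSurf μ') {c : ℝ} (hc : 0 ≤ c) (h : Below D c A A')
    {n : ℕ} (F : Fin n → M → ℝ) (t : Fin n → ℝ) (x : M) :
    ‖∑ k, t k • (met D A').gr (F k) x‖ ≤ c * ‖∑ k, t k • (met D A).gr (F k) x‖ := by
  obtain ⟨i, hi⟩ := Pool.Agent.Y708.QE.pc_ex S x
  have hU : x ∈ D.U i := hi.1
  have hT : D.φ i x ∈ D.T i := ⟨x, hU, rfl⟩
  have e : ∀ (B : Fin D.N → ℂ → ℂ →L[ℝ] ℂ), ∑ k, t k • (met D B).gr (F k) x =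
      grd (B i (D.φ i x)) (∑ k, t k • D.dc i (F k) x) := by
    intro B
    have h1 : ∀ k, (met D B).gr (F k) x = grd (B i (D.φ i x)) (D.dc i (F k) x) := by
      intro k
      rw [Pool.Agent.Y708.QE.gr_eq (D := met D B) (F := F k) (i := i) hi]
      rfl
    simp only [h1]
    apply Complex.ext
    · rw [Complex.re_sum]
      simp [grd]
    · rw [Complex.im_sum]
      simp [grd]
  rw [e A, e A']
  exact grd_le (S.det i _ hT) (S'.det i _ hT) hc (h i _ hT) _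

end cmp

variable {M : Type} [MetricSpace M] [CompactSpace M] [MeasurableSpace M] [BorelSpace M]

omit [MetricSpace M] [CompactSpace M] [BorelSpace M] in
lemma fst_sum' {μ : Measure M} {n : ℕ} (f : Fin n → WithLp 2 (Lp ℝ 2 μ × Lp ℂ 2 μ)) (t : Fin n → ℝ)
    (s : Finset (Fin n)) : (∑ k ∈ s, t k • f k).fst = ∑ k ∈ s, t k • (f k).fst ∧
      (∑ k ∈ s, t k • f k).snd = ∑ k ∈ s, t k • (f k).snd := by
  induction s using Finset.induction_on with
  | empty => simp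
  | insert a s ha ih =>
    rw [Finset.sum_insert ha, Finset.sum_insert ha, Finset.sum_insert ha, ← ih.1, ← ih.2]
    exact ⟨rfl, rfl⟩

/-- the norms of linear combinations -/
lemma comb_norm {D : Data M} {μ : Measure M} {n : ℕ} (F : Fin n → M → ℝ)
    (f : Fin n → WithLp 2 (Lp ℝ 2 μ × Lp ℂ 2 μ)) (h1 : ∀ k, ((f k).fst : M → ℝ) =ᵐ[μ] F k)
    (h2 : ∀ k, ((f k).snd : M → ℂ) =ᵐ[μ] D.gr (F k)) (t : Fin n → ℝ) :
    ‖(∑ k, t k • f k).fst‖ ^ 2 = ∫ x, (∑ k, t k * F k x) ^ 2 ∂μ ∧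
    ‖(∑ k, t k • f k).snd‖ ^ 2 = ∫ x, ‖∑ k, t k • D.gr (F k) x‖ ^ 2 ∂μ := by
  obtain ⟨e1, e2⟩ := fst_sum' f t Finset.univ
  constructor
  · rw [e1, nsq]
    refine integral_congr_ae ?_
    filter_upwards [Pool.Agent.Y378.QR.coe_sum t (fun k => (f k).fst) F h1 Finset.univ] with x hx
    rw [hx]
    simp
  · rw [e2, ← real_inner_self_eq_norm_sq, innC]
    refine integral_congr_ae ?_
    filter_upwards [Pool.Agent.Y378.QR.coe_sum t (fun k => (f k).snd) (fun k => D.gr (F k)) h2 Finset.univ] with x hx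
    rw [hx, real_inner_self_eq_norm_sq]

theorem approx {D : Data M} {μ : Measure M} (hD : D.IsSurf μ) {a b : HF D μ →L[ℝ] HF D μ →L[ℝ] ℝ}
    (hP : Pk D μ a b) {u : ℕ → M → ℝ} {lam : ℕ → ℝ} (hu : IsEigenbasis D μ u lam) (j : ℕ) {η : ℝ} (hη : 0 < η) :
    ∃ (F : Fin (j + 1) → M → ℝ) (δ : ℝ), (∀ k, D.C1 (F k)) ∧ 0 < δ ∧ ∀ t : Fin (j + 1) → ℝ,
      δ * ∑ k, (t k) ^ 2 ≤ ∫ x, (∑ k, t k * F k x) ^ 2 ∂μ ∧
      ∫ x, ‖∑ k, t k • D.gr (F k) x‖ ^ 2 ∂μ ≤ (lam j + η) * ∫ x, (∑ k, t k * F k x) ^ 2 ∂μ := by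
  obtain ⟨e, he⟩ := hP.eg u lam hu
  have hlam : ∀ k, 0 ≤ lam k := by
    intro k
    have h1 := he.eig k (e k)
    rw [he.orth k k, if_pos rfl, mul_one] at h1
    rw [← h1]
    exact hP.fm.na _
  -- the parameter
  obtain ⟨κ, hκ0, hκ1, hκ⟩ : ∃ κ : ℝ, 0 < κ ∧ κ < 1 / 2 ∧ ((√(lam j) + κ) / (1 - κ)) ^ 2 ≤ lam j + η := by
    have h1 : ContinuousAt (fun κ : ℝ => ((√(lam j) + κ) / (1 - κ)) ^ 2) 0 := by
      refine ContinuousAt.pow (ContinuousAt.div (by fun_prop) (by fun_prop) (by norm_num)) 2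
    have h2 : ∀ᶠ κ in 𝓝 (0 : ℝ), ((√(lam j) + κ) / (1 - κ)) ^ 2 < lam j + η := by
      refine h1.eventually (gt_mem_nhds ?_)
      show ((√(lam j) + 0) / (1 - 0)) ^ 2 < lam j + η
      rw [add_zero, sub_zero, div_one, Real.sq_sqrt (hlam j)]
      linarith
    have h3 : ∀ᶠ κ in 𝓝[>] (0 : ℝ), ((√(lam j) + κ) / (1 - κ)) ^ 2 < lam j + η := h2.filter_mono nhdsWithin_le_nhds
    have h4 : ∀ᶠ κ in 𝓝[>] (0 : ℝ), κ < 1 / 2 := (gt_mem_nhds (by norm_num : (0 : ℝ) < 1 / 2)).filter_mono nhdsWithin_le_nhds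
    obtain ⟨κ, h5, h6, h7⟩ := (h3.and (h4.and self_mem_nhdsWithin)).exists
    exact ⟨κ, h7, h6, h5.le⟩
  have hj : (0 : ℝ) < (j : ℝ) + 1 := by positivity
  have hτ : 0 < κ / ((j : ℝ) + 1) := by positivity
  have hex : ∀ k : Fin (j + 1), ∃ (F : M → ℝ) (f : WithLp 2 (Lp ℝ 2 μ × Lp ℂ 2 μ)), D.C1 F ∧
      (f.fst : M → ℝ) =ᵐ[μ] F ∧ (f.snd : M → ℂ) =ᵐ[μ] D.gr F ∧ ‖f - (e k).1‖ ≤ κ / ((j : ℝ) + 1) := by
    intro k
    obtain ⟨F, f, hF, hf⟩ := (tDenF M μ D hD).2 (e k).1 (e k).2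
    obtain ⟨n, hn⟩ := ((Metric.tendsto_nhds.1 hf) _ hτ).exists
    rw [dist_eq_norm] at hn
    exact ⟨F n, f n, (hF n).1, (hF n).2.2.1, (hF n).2.2.2, hn.le⟩
  choose F f h1 h2 h3 h4 using hex
  refine ⟨F, (1 - κ) ^ 2, h1, by nlinarith, fun t => ?_⟩
  obtain ⟨n1, n2⟩ := comb_norm F f h2 h3 t
  rw [← n1, ← n2]
  set r : ℝ := √(∑ k, (t k) ^ 2) with hr
  have hr0 : 0 ≤ r := Real.sqrt_nonneg _
  have hr2 : r ^ 2 = ∑ k, (t k) ^ 2 := Real.sq_sqrt (Finset.sum_nonneg fun k _ => sq_nonneg _)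
  have ht : ∀ k, |t k| ≤ r := by
    intro k
    rw [hr]
    apply Real.abs_le_sqrt
    exact Finset.single_le_sum (f := fun k => (t k) ^ 2) (fun k _ => sq_nonneg _) (Finset.mem_univ k)
  -- the vector of eigenvectors
  set v : HF D μ := ∑ k : Fin (j + 1), t k • e k with hv
  have hvc : v.1 = ∑ k : Fin (j + 1), t k • (e k).1 := by
    rw [hv]
    simp
  have hdiff : ‖(∑ k, t k • f k) - v.1‖ ≤ κ * r := by
    rw [hvc, ← Finset.sum_sub_distrib]
    calc ‖∑ k, (t k • f k - t k • (e k).1)‖ ≤ ∑ k : Fin (j + 1), ‖t k • f k - t k • (e k).1‖ := norm_sum_le _ _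
      _ ≤ ∑ _k : Fin (j + 1), r * (κ / ((j : ℝ) + 1)) := by
        refine Finset.sum_le_sum fun k _ => ?_
        rw [← smul_sub, norm_smul, Real.norm_eq_abs]
        exact mul_le_mul (ht k) (h4 k) (norm_nonneg _) hr0
      _ = κ * r := by
        rw [Finset.sum_const, Finset.card_univ, Fintype.card_fin, nsmul_eq_mul]
        push_cast
        field_simp
  have hL2 : ∀ z : WithLp 2 (Lp ℝ 2 μ × Lp ℂ 2 μ), ‖z.fst‖ ≤ ‖z‖ ∧ ‖z.snd‖ ≤ ‖z‖ := by
    intro z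
    have h5 := WithLp.prod_norm_sq_eq_of_L2 z
    constructor
    · apply le_of_sq_le_sq _ (norm_nonneg _)
      nlinarith [sq_nonneg ‖z.snd‖]
    · apply le_of_sq_le_sq _ (norm_nonneg _)
      nlinarith [sq_nonneg ‖z.fst‖]
  have horth : ∀ i k : Fin (j + 1), b (e i) (e k) = if i = k then 1 else 0 := Pool.Agent.Y592.QE.orth_fin b he.orth (j + 1)
  have hb : ‖v.1.fst‖ ^ 2 = r ^ 2 := by
    rw [← hP.bv v, hr2, hv]
    exact Pool.Agent.Y592.QE.b_orth_self b horth t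
  have ha : ‖v.1.snd‖ ^ 2 ≤ lam j * r ^ 2 := by
    rw [← hP.av v, hr2, Finset.mul_sum]
    have h5 : a v v = ∑ k : Fin (j + 1), t k * (lam k * t k) := by
      conv_lhs => rw [hv]
      rw [Pool.Agent.Y592.QE.b_sum_left a t (fun k : Fin (j + 1) => e k) v]
      refine Finset.sum_congr rfl fun k _ => ?_
      rw [he.eig k v, hv, Pool.Agent.Y592.QE.b_orth_coef b horth t k]
    rw [h5]
    refine Finset.sum_le_sum fun k _ => ?_
    have h6 : lam k ≤ lam j := he.mono (Nat.lt_succ_iff.1 k.2)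
    nlinarith [sq_nonneg (t k)]
  have hb' : ‖v.1.fst‖ = r := by
    have := congrArg Real.sqrt hb
    rwa [Real.sqrt_sq (norm_nonneg _), Real.sqrt_sq hr0] at this
  have ha' : ‖v.1.snd‖ ≤ √(lam j) * r := by
    apply le_of_sq_le_sq _ (by positivity)
    rw [mul_pow, Real.sq_sqrt (hlam j)]
    exact ha
  set w : WithLp 2 (Lp ℝ 2 μ × Lp ℂ 2 μ) := ∑ k, t k • f k with hw
  have g1 : ‖w.snd‖ ≤ (√(lam j) + κ) * r := by
    have h5 : w.snd = v.1.snd + (w - v.1).snd := by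
      rw [WithLp.sub_snd]
      abel
    calc ‖w.snd‖ = ‖v.1.snd + (w - v.1).snd‖ := by rw [← h5]
      _ ≤ ‖v.1.snd‖ + ‖(w - v.1).snd‖ := norm_add_le _ _
      _ ≤ √(lam j) * r + κ * r := add_le_add ha' (((hL2 _).2).trans hdiff)
      _ = _ := by ring
  have g2 : (1 - κ) * r ≤ ‖w.fst‖ := by
    have h5 : v.1.fst = w.fst - (w - v.1).fst := by
      rw [WithLp.sub_fst]
      abel
    have h6 : ‖v.1.fst‖ ≤ ‖w.fst‖ + ‖(w - v.1).fst‖ := by
      calc ‖v.1.fst‖ = ‖w.fst - (w - v.1).fst‖ := by rw [← h5]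
        _ ≤ _ := norm_sub_le _ _
    have h7 := ((hL2 (w - v.1)).1).trans hdiff
    rw [hb'] at h6
    linarith
  have hκ2 : 0 < 1 - κ := by linarith
  have hlr : 0 ≤ (1 - κ) * r := by positivity
  constructor
  · rw [← hr2]
    calc (1 - κ) ^ 2 * r ^ 2 = ((1 - κ) * r) ^ 2 := by ring
      _ ≤ ‖w.fst‖ ^ 2 := pow_le_pow_left₀ hlr g2 2
  · calc ‖w.snd‖ ^ 2 ≤ ((√(lam j) + κ) * r) ^ 2 := pow_le_pow_left₀ (norm_nonneg _) g1 2
      _ = ((√(lam j) + κ) / (1 - κ)) ^ 2 * ((1 - κ) * r) ^ 2 := by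
        field_simp
      _ ≤ (lam j + η) * ((1 - κ) * r) ^ 2 := mul_le_mul_of_nonneg_right hκ (sq_nonneg _)
      _ ≤ (lam j + η) * ‖w.fst‖ ^ 2 := by
        apply mul_le_mul_of_nonneg_left (pow_le_pow_left₀ hlr g2 2)
        linarith [hlam j]

omit [MetricSpace M] [CompactSpace M] [BorelSpace M] in
/-- a nonnegative integrable function has comparable integrals for comparable measures -/
lemma int_le {μ μ' : Measure M} {c : ℝ} (hc : 0 ≤ c) (h : μ' ≤ ENNReal.ofReal c • μ) {g : M → ℝ} (hg : ∀ x, 0 ≤ g x)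
    (hi : Integrable g μ) : ∫ x, g x ∂μ' ≤ c * ∫ x, g x ∂μ := by
  have h1 : ∫ x, g x ∂μ' ≤ ∫ x, g x ∂(ENNReal.ofReal c • μ) :=
    integral_mono_measure h (Eventually.of_forall hg) (hi.smul_measure ENNReal.ofReal_ne_top)
  rw [integral_smul_measure, ENNReal.toReal_ofReal hc, smul_eq_mul] at h1
  exact h1

/-- **Comparison of the eigenvalues of two metrics.** -/
theorem lam_le [Nonempty M] {D : Data M} {A A' : Fin D.N → ℂ → ℂ →L[ℝ] ℂ} {μ μ' : Measure M}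
    (S : (met D A).IsSurf μ) (S' : (met D A').IsSurf μ') {c : ℝ} (hc : 0 < c) (h : Below D c A A') (h' : Below D c A' A)
    {u u' : ℕ → M → ℝ} {lam lam' : ℕ → ℝ} (hu : IsEigenbasis (met D A) μ u lam)
    (hu' : IsEigenbasis (met D A') μ' u' lam') (j : ℕ) : 0 ≤ lam j ∧ lam' j ≤ c ^ 6 * lam j := by
  obtain ⟨⟨a, b, hP⟩, -⟩ := pack S
  obtain ⟨⟨a', b', hP'⟩, -⟩ := pack S'
  obtain ⟨e, he⟩ := hP.eg u lam hu
  obtain ⟨e', he'⟩ := hP'.eg u' lam' hu'
  have hlam : 0 ≤ lam j := by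
    have h1 := he.eig j (e j)
    rw [he.orth j j, if_pos rfl, mul_one] at h1
    rw [← h1]
    exact hP.fm.na _
  refine ⟨hlam, ?_⟩
  rw [← Pool.Agent.Y592.QE.mm _ a' b' hP'.fm e' lam' he' j]
  have hf := (tFin M μ _ S).1
  have hf' := (tFin M μ' _ S').1
  refine le_of_forall_pos_le_add fun ε hε => ?_
  obtain ⟨F, δ, hF, hδ, hap⟩ := approx S hP hu j (η := ε / c ^ 6) (by positivity)
  choose v hv hv1 hv2 using fun k => (tDenF M μ' _ S').1 (F k) (hF k)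
  have hin1 : ∀ (t : Fin (j + 1) → ℝ) (ν : Measure M) [IsFiniteMeasure ν], Integrable (fun x => (∑ k, t k * F k x) ^ 2) ν := by
    intro t ν _
    have hc1 : Continuous fun x => (∑ k, t k * F k x) ^ 2 := by
      refine Continuous.pow (continuous_finsetSum _ fun k _ => ?_) 2
      exact continuous_const.mul (Pool.Agent.Y708.QE.C1_cont S (hF k))
    exact hc1.integrable_of_hasCompactSupport (HasCompactSupport.of_compactSpace _)
  have hin2 : ∀ (t : Fin (j + 1) → ℝ) (ν : Measure M) [IsFiniteMeasure ν],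
      Integrable (fun x => ‖∑ k, t k • (met D A).gr (F k) x‖ ^ 2) ν := by
    intro t ν _
    have hm : Measurable fun x => ‖∑ k, t k • (met D A).gr (F k) x‖ ^ 2 := by
      refine (Measurable.norm ?_).pow_const 2
      refine Finset.measurable_sum _ fun k _ => ?_
      exact (Pool.Agent.Y708.QE.gr_meas S (hF k)).const_smul (t k)
    choose C hC using fun k => Pool.Agent.Y708.QE.gr_bdd S (hF k)
    refine Integrable.of_bound hm.aestronglyMeasurable ((∑ k, |t k| * C k) ^ 2) (Eventually.of_forall fun x => ?_)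
    rw [norm_pow, norm_norm]
    apply pow_le_pow_left₀ (norm_nonneg _)
    refine (norm_sum_le _ _).trans (Finset.sum_le_sum fun k _ => ?_)
    rw [norm_smul, Real.norm_eq_abs]
    exact mul_le_mul_of_nonneg_left (hC k x) (abs_nonneg _)
  have hμ := meas_le S' S hc.le h
  have hμ' := meas_le S S' hc.le h'
  have hval : ∀ t : Fin (j + 1) → ℝ,
      b' (∑ k, t k • (⟨v k, hv k⟩ : HF (met D A') μ')) (∑ k, t k • (⟨v k, hv k⟩ : HF (met D A') μ')) =
        ∫ x, (∑ k, t k * F k x) ^ 2 ∂μ' ∧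
      a' (∑ k, t k • (⟨v k, hv k⟩ : HF (met D A') μ')) (∑ k, t k • (⟨v k, hv k⟩ : HF (met D A') μ')) =
        ∫ x, ‖∑ k, t k • (met D A').gr (F k) x‖ ^ 2 ∂μ' := by
    intro t
    have e1 : ((∑ k, t k • (⟨v k, hv k⟩ : HF (met D A') μ') : HF (met D A') μ')).1 = ∑ k, t k • v k := by simp
    obtain ⟨n1, n2⟩ := comb_norm (D := met D A') F v hv1 hv2 t
    constructor
    · rw [hP'.bv, e1, n1]
    · rw [hP'.av, e1, n2]
  have hmain : Ev a' b' j ≤ c ^ 6 * (lam j + ε / c ^ 6) := by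
    refine Pool.Agent.Y378.QR.ev_upper (N := j + 1) (fun k => (⟨v k, hv k⟩ : HF (met D A') μ')) (δ := δ / c ^ 2)
      (by positivity) (by positivity) (fun t => ?_) (fun t => ?_) le_rfl
    · rw [(hval t).1]
      have h5 := int_le (by positivity) hμ (fun x => sq_nonneg _) (hin1 t μ')
      have h6 := (hap t).1
      rw [div_mul_eq_mul_div, div_le_iff₀ (by positivity)]
      linarith
    · rw [(hval t).1, (hval t).2]
      have h5 := int_le (by positivity) hμ (fun x => sq_nonneg _) (hin1 t μ')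
      have h6 := (hap t).2
      have h7 : ∫ x, ‖∑ k, t k • (met D A').gr (F k) x‖ ^ 2 ∂μ' ≤
          c ^ 2 * ∫ x, ‖∑ k, t k • (met D A).gr (F k) x‖ ^ 2 ∂μ' := by
        rw [← integral_const_mul]
        refine integral_mono_of_nonneg (Eventually.of_forall fun x => sq_nonneg _) ((hin2 t μ').const_mul _)
          (Eventually.of_forall fun x => ?_)
        have h8 := gr_comb S S' hc.le h F t x
        calc ‖∑ k, t k • (met D A').gr (F k) x‖ ^ 2 ≤ (c * ‖∑ k, t k • (met D A).gr (F k) x‖) ^ 2 :=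
              pow_le_pow_left₀ (norm_nonneg _) h8 2
          _ = _ := by ring
      have h8 := int_le (by positivity) hμ' (fun x => sq_nonneg _) (hin2 t μ)
      have hle : 0 ≤ lam j + ε / c ^ 6 := by positivity
      calc ∫ x, ‖∑ k, t k • (met D A').gr (F k) x‖ ^ 2 ∂μ'
          ≤ c ^ 2 * ∫ x, ‖∑ k, t k • (met D A).gr (F k) x‖ ^ 2 ∂μ' := h7
        _ ≤ c ^ 2 * (c ^ 2 * ∫ x, ‖∑ k, t k • (met D A).gr (F k) x‖ ^ 2 ∂μ) :=
          mul_le_mul_of_nonneg_left h8 (by positivity)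
        _ ≤ c ^ 2 * (c ^ 2 * ((lam j + ε / c ^ 6) * ∫ x, (∑ k, t k * F k x) ^ 2 ∂μ)) := by gcongr
        _ ≤ c ^ 2 * (c ^ 2 * ((lam j + ε / c ^ 6) * (c ^ 2 * ∫ x, (∑ k, t k * F k x) ^ 2 ∂μ'))) := by gcongr
        _ = _ := by ring
  refine hmain.trans (le_of_eq ?_)
  field_simp

end Pool.Agent.L7h16.AM
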