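import Pool.Agent.L7h16.AM.Cmp
import Pool.Agent.N250.SP.Surf

/-! Continuous families of metrics on a closed surface: the unfolded levels are a continuous family of spectra. -/

set_option autoImplicit false

open Set Filter Topology MeasureTheory
open scoped Real ContDiff
open Pool.Agent.Y262.QE Pool.Agent.Y264.QR

noncomputable section

namespace Pool.Agent.L7h16.AM

open Pool.Agent.Results.MP_a825e8_mp.SurfacesLimitStatistics (IsEigenbasis number)
open Pool.Agent.Q205.Baire (Spectra LocalStat S count nice_S)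

/-- `A p`, for `p` in the topological space `F`, are coframes in the fixed charts `D` which define metrics of a closed
surface with the areas `μ p`, and for every `ε > 0` and every `q` near `p` each of the metrics `q`, `p` is at most
`(1 + ε) ^ 2` times the other one: a family of metrics, continuous in the `C⁰` sense -/
structure IsFamily {M : Type} [TopologicalSpace M] [MeasurableSpace M] (D : Data M) {F : Type} [TopologicalSpace F]
    (A : F → Fin D.N → ℂ → ℂ →L[ℝ] ℂ) (μ : F → Measure M) : Prop where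
  surf : ∀ p, (met D (A p)).IsSurf (μ p)
  near : ∀ p, ∀ ε : ℝ, 0 < ε → ∀ᶠ q in 𝓝 p, Below D (1 + ε) (A q) (A p) ∧ Below D (1 + ε) (A p) (A q)

/-- `x` is the sequence of the unfolded levels of the surface `D` with the area `μ`: the eigenvalues of the Laplacian,
listed with multiplicity, times the total area divided by `4 π` -/
def IsLevels {M : Type} [MeasurableSpace M] (D : Data M) (μ : Measure M) (x : ℕ → ℝ) : Prop :=
  ∃ (u : ℕ → M → ℝ) (lam : ℕ → ℝ), IsEigenbasis D μ u lam ∧ ∀ k, x k = μ.real univ / (4 * π) * lam k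

variable {M : Type} [MetricSpace M] [CompactSpace M] [MeasurableSpace M] [BorelSpace M] [Nonempty M]

theorem exists_levels {D : Data M} {μ : Measure M} (S : D.IsSurf μ) : ∃ x, IsLevels D μ x := by
  obtain ⟨-, u, lam, h⟩ := pack S
  exact ⟨_, u, lam, h, fun _ => rfl⟩

omit [MetricSpace M] [CompactSpace M] [BorelSpace M] [Nonempty M] in
theorem levels_mono {D : Data M} {μ : Measure M} {x : ℕ → ℝ} (h : IsLevels D μ x) :
    Monotone x := by
  obtain ⟨u, lam, hu, hx⟩ := h
  intro j k hjk
  rw [hx, hx]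
  exact mul_le_mul_of_nonneg_left (hu.mono hjk) (by positivity)

/-- Weyl's law -/
theorem levels_weyl {D : Data M} {μ : Measure M} (S : D.IsSurf μ) {x : ℕ → ℝ} (h : IsLevels D μ x) :
    Tendsto (fun k : ℕ => x k / (k + 1)) atTop (𝓝 1) := by
  obtain ⟨⟨a, b, hP⟩, -⟩ := pack S
  obtain ⟨u, lam, hu, hx⟩ := h
  obtain ⟨e, he⟩ := hP.eg u lam hu
  have h1 := hP.weyl.const_mul (μ.real univ / (4 * π))
  have hfin := (tFin M μ D S).1
  have hpos : 0 < μ.real univ := ENNReal.toReal_pos ((tFin M μ D S).2 univ isOpen_univ univ_nonempty).ne' (measure_ne_top μ _)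
  have h2 : μ.real univ / (4 * π) * (4 * π / μ.real univ) = 1 := by
    have := Real.pi_pos
    field_simp
  rw [h2] at h1
  refine h1.congr fun k => ?_
  rw [Pool.Agent.Y592.QE.mm _ a b hP.fm e lam he k, hx]
  ring

theorem levels_unb {D : Data M} {μ : Measure M} (S : D.IsSurf μ) {x : ℕ → ℝ} (h : IsLevels D μ x) :
    Tendsto x atTop atTop := by
  have h1 := levels_weyl S h
  have h2 : Tendsto (fun k : ℕ => (k : ℝ) + 1) atTop atTop := tendsto_natCast_atTop_atTop.atTop_add tendsto_const_nhds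
  refine (h1.pos_mul_atTop one_pos h2).congr fun k => ?_
  have : (k : ℝ) + 1 ≠ 0 := by positivity
  field_simp

/-- comparison of the unfolded levels of two metrics -/
theorem levels_le {D : Data M} {A A' : Fin D.N → ℂ → ℂ →L[ℝ] ℂ} {μ μ' : Measure M} (S : (met D A).IsSurf μ)
    (S' : (met D A').IsSurf μ') {c : ℝ} (hc : 0 < c) (h : Below D c A A') (h' : Below D c A' A) {x x' : ℕ → ℝ}
    (hx : IsLevels (met D A) μ x) (hx' : IsLevels (met D A') μ' x') (k : ℕ) : 0 ≤ x k ∧ x' k ≤ c ^ 8 * x k := by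
  obtain ⟨u, lam, hu, hxk⟩ := hx
  obtain ⟨u', lam', hu', hxk'⟩ := hx'
  obtain ⟨h1, h2⟩ := lam_le S S' hc h h' hu hu' k
  obtain ⟨h3, -⟩ := lam_le S' S hc h' h hu' hu k
  have hfin := (tFin M μ _ S).1
  have hm : μ'.real univ ≤ c ^ 2 * μ.real univ := by
    have h4 := meas_le S S' hc.le h' univ
    rw [Measure.smul_apply, smul_eq_mul] at h4
    have h5 := ENNReal.toReal_mono (ENNReal.mul_ne_top ENNReal.ofReal_ne_top (measure_ne_top μ univ)) h4
    rwa [ENNReal.toReal_mul, ENNReal.toReal_ofReal (by positivity)] at h5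
  rw [hxk, hxk']
  refine ⟨by positivity, ?_⟩
  calc μ'.real univ / (4 * π) * lam' k ≤ (c ^ 2 * μ.real univ) / (4 * π) * (c ^ 6 * lam k) := by gcongr
    _ = c ^ 8 * (μ.real univ / (4 * π) * lam k) := by ring

theorem levels_unique {D : Data M} {A : Fin D.N → ℂ → ℂ →L[ℝ] ℂ} {μ : Measure M} (S : (met D A).IsSurf μ) {x x' : ℕ → ℝ}
    (hx : IsLevels (met D A) μ x) (hx' : IsLevels (met D A) μ x') : x = x' := by
  have h : Below D 1 A A := fun i z _ v => by rw [one_mul]
  funext k
  have h1 := (levels_le S S one_pos h h hx hx' k).2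
  have h2 := (levels_le S S one_pos h h hx' hx k).2
  rw [one_pow, one_mul] at h1 h2
  exact le_antisymm h2 h1

section fam

variable {D : Data M} {F : Type} [TopologicalSpace F] {A : F → Fin D.N → ℂ → ℂ →L[ℝ] ℂ} {μ : F → Measure M}

theorem levels_cont (hA : IsFamily D A μ) {x : F → ℕ → ℝ} (hx : ∀ p, IsLevels (met D (A p)) (μ p) (x p)) (k : ℕ) :
    Continuous fun p => x p k := by
  rw [continuous_iff_continuousAt]
  intro p
  have hlim : Tendsto (fun ε : ℝ => (1 + ε) ^ 8) (𝓝[>] 0) (𝓝 1) := by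
    have h1 : ContinuousAt (fun ε : ℝ => (1 + ε) ^ 8) 0 := by fun_prop
    have h2 := h1.tendsto
    simp only [add_zero, one_pow] at h2
    exact h2.mono_left nhdsWithin_le_nhds
  have hpos : ∀ ε : ℝ, 0 < ε → ∀ᶠ q in 𝓝 p, x q k ≤ (1 + ε) ^ 8 * x p k ∧ x p k ≤ (1 + ε) ^ 8 * x q k := by
    intro ε hε
    filter_upwards [hA.near p ε hε] with q hq
    have hc : 0 < 1 + ε := by linarith
    exact ⟨(levels_le (hA.surf p) (hA.surf q) hc hq.2 hq.1 (hx p) (hx q) k).2,
      (levels_le (hA.surf q) (hA.surf p) hc hq.1 hq.2 (hx q) (hx p) k).2⟩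
  rw [ContinuousAt, tendsto_order]
  constructor
  · intro a ha
    have h1 : ∀ᶠ ε in 𝓝[>] (0 : ℝ), (1 + ε) ^ 8 * a < x p k := by
      have := hlim.mul_const a
      rw [one_mul] at this
      exact this.eventually (gt_mem_nhds ha)
    obtain ⟨ε, h2, h3⟩ := (h1.and self_mem_nhdsWithin).exists
    have h3' : (0 : ℝ) < ε := h3
    filter_upwards [hpos ε h3'] with q hq
    have hc : 0 < (1 + ε) ^ 8 := by positivity
    by_contra hcon
    rw [not_lt] at hcon
    have := mul_le_mul_of_nonneg_left hcon hc.le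
    linarith [hq.2]
  · intro b hb
    have h1 : ∀ᶠ ε in 𝓝[>] (0 : ℝ), (1 + ε) ^ 8 * x p k < b := by
      have := hlim.mul_const (x p k)
      rw [one_mul] at this
      exact this.eventually (gt_mem_nhds hb)
    obtain ⟨ε, h2, h3⟩ := (h1.and self_mem_nhdsWithin).exists
    have h3' : (0 : ℝ) < ε := h3
    filter_upwards [hpos ε h3'] with q hq
    exact hq.1.trans_lt h2

/-- the continuous family of spectra -/
def spectra (hA : IsFamily D A μ) {x : F → ℕ → ℝ} (hx : ∀ p, IsLevels (met D (A p)) (μ p) (x p)) : Spectra F where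
  x := fun k p => x p k
  cont := levels_cont hA hx
  mono := fun p => levels_mono (hx p)
  unb := fun p => levels_unb (hA.surf p) (hx p)

theorem number_div (hA : IsFamily D A μ) {x : F → ℕ → ℝ} (hx : ∀ p, IsLevels (met D (A p)) (μ p) (x p)) (p : F) :
    Tendsto (fun T : ℝ => (number T (x p) : ℝ) / T) atTop (𝓝 1) :=
  Pool.Agent.Q205.Baire.count_div (spectra hA hx) p (levels_weyl (hA.surf p) (hx p))

end fam

end Pool.Agent.L7h16.AM
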