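import Pool.Agent.Y262.QE.Def

/-! Comparison of two coframes: the gradients and the area densities. -/

set_option autoImplicit false

open Set Filter Topology MeasureTheory
open Pool.Agent.Y262.QE

noncomputable section

namespace Pool.Agent.L7h16.AM

lemma inv_apply {A : ℂ →L[ℝ] ℂ} (hA : A.det ≠ 0) (y : ℂ) : A (A.inverse y) = y := by
  obtain ⟨e, he⟩ : ∃ e : ℂ ≃L[ℝ] ℂ, (e : ℂ →L[ℝ] ℂ) = A :=
    ⟨A.toContinuousLinearEquivOfDetNeZero hA, rfl⟩
  rw [← he, ContinuousLinearMap.inverse_equiv]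
  simp

lemma inv_apply' {A : ℂ →L[ℝ] ℂ} (hA : A.det ≠ 0) (y : ℂ) : A.inverse (A y) = y := by
  obtain ⟨e, he⟩ : ∃ e : ℂ ≃L[ℝ] ℂ, (e : ℂ →L[ℝ] ℂ) = A :=
    ⟨A.toContinuousLinearEquivOfDetNeZero hA, rfl⟩
  rw [← he, ContinuousLinearMap.inverse_equiv]
  simp

lemma det_bound {T : ℂ →L[ℝ] ℂ} {c : ℝ} (hc : 0 ≤ c) (h : ∀ v, ‖T v‖ ≤ c * ‖v‖) : |T.det| ≤ c ^ 2 := by
  have h1 : volume (T '' Metric.closedBall (0 : ℂ) 1) = ENNReal.ofReal |T.det| * volume (Metric.closedBall (0 : ℂ) 1) :=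
    Measure.addHaar_image_continuousLinearMap volume T _
  have h2 : T '' Metric.closedBall (0 : ℂ) 1 ⊆ Metric.closedBall (0 : ℂ) c := by
    rintro _ ⟨v, hv, rfl⟩
    rw [mem_closedBall_zero_iff] at hv ⊢
    calc ‖T v‖ ≤ c * ‖v‖ := h v
      _ ≤ c * 1 := mul_le_mul_of_nonneg_left hv hc
      _ = c := mul_one c
  have h3 : volume (Metric.closedBall (0 : ℂ) c) = ENNReal.ofReal (c ^ 2) * volume (Metric.closedBall (0 : ℂ) 1) := by
    rw [Measure.addHaar_closedBall' volume (0 : ℂ) hc, Complex.finrank_real_complex,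
      Measure.addHaar_closedBall' volume (0 : ℂ) zero_le_one]
  have h4 := measure_mono h2 (μ := volume)
  rw [h1, h3] at h4
  have h5 : volume (Metric.closedBall (0 : ℂ) 1) ≠ 0 := (Metric.measure_closedBall_pos volume _ one_pos).ne'
  have h6 : volume (Metric.closedBall (0 : ℂ) 1) ≠ ⊤ := measure_closedBall_lt_top.ne
  rw [ENNReal.mul_le_mul_iff_left h5 h6] at h4
  exact (ENNReal.ofReal_le_ofReal_iff (by positivity)).1 h4

/-- the area densities -/
lemma det_le {A A' : ℂ →L[ℝ] ℂ} (hA : A.det ≠ 0) {c : ℝ} (hc : 0 ≤ c) (h : ∀ v, ‖A' v‖ ≤ c * ‖A v‖) :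
    |A'.det| ≤ c ^ 2 * |A.det| := by
  have h1 : ∀ v, ‖(A'.comp A.inverse) v‖ ≤ c * ‖v‖ := by
    intro v
    have h2 := h (A.inverse v)
    rwa [inv_apply hA] at h2
  have h3 := det_bound hc h1
  have h4 : A' = (A'.comp A.inverse).comp A := by
    ext1 v
    simp [inv_apply' hA]
  have h5 : A'.det = (A'.comp A.inverse).det * A.det := by
    calc A'.det = ((A'.comp A.inverse).comp A).det := by rw [← h4]
      _ = (A'.comp A.inverse).det * A.det := LinearMap.det_comp _ _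
  rw [h5, abs_mul]
  exact mul_le_mul_of_nonneg_right h3 (abs_nonneg _)

lemma grd_inner {A : ℂ →L[ℝ] ℂ} (hA : A.det ≠ 0) (P : ℂ →L[ℝ] ℝ) (v : ℂ) :
    P v = (grd A P).re * (A v).re + (grd A P).im * (A v).im := by
  have h1 : v = A.inverse (A v) := (inv_apply' hA v).symm
  have h2 : A v = ((A v).re : ℝ) • (1 : ℂ) + ((A v).im : ℝ) • Complex.I := by
    apply Complex.ext <;> simp
  calc P v = P (A.inverse (A v)) := by rw [← h1]
    _ = P (A.inverse (((A v).re : ℝ) • (1 : ℂ) + ((A v).im : ℝ) • Complex.I)) := by rw [← h2]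
    _ = _ := by
      rw [map_add, map_smul, map_smul, map_add, map_smul, map_smul]
      simp only [grd, smul_eq_mul]
      ring

/-- the gradients -/
lemma grd_le {A A' : ℂ →L[ℝ] ℂ} (hA : A.det ≠ 0) (hA' : A'.det ≠ 0) {c : ℝ} (hc : 0 ≤ c)
    (h : ∀ v, ‖A v‖ ≤ c * ‖A' v‖) (P : ℂ →L[ℝ] ℝ) : ‖grd A' P‖ ≤ c * ‖grd A P‖ := by
  rcases (norm_nonneg (grd A' P)).eq_or_lt with h0 | h0
  · rw [← h0]
    positivity
  -- test with the gradient itself
  have h1 := grd_inner hA' P (A'.inverse (grd A' P))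
  have h2 := grd_inner hA P (A'.inverse (grd A' P))
  rw [inv_apply hA'] at h1
  have h3 : ‖grd A' P‖ ^ 2 = P (A'.inverse (grd A' P)) := by
    rw [h1, Complex.sq_norm, Complex.normSq_apply]
  have h4 : P (A'.inverse (grd A' P)) ≤ ‖grd A P‖ * ‖A (A'.inverse (grd A' P))‖ := by
    rw [h2]
    set g := grd A P
    set w := A (A'.inverse (grd A' P))
    have h5 : (g.re * w.re + g.im * w.im) = ((starRingEnd ℂ) g * w).re := by
      simp [Complex.mul_re]
    rw [h5]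
    calc ((starRingEnd ℂ) g * w).re ≤ ‖(starRingEnd ℂ) g * w‖ := Complex.re_le_norm _
      _ = ‖g‖ * ‖w‖ := by rw [norm_mul, Complex.norm_conj]
  have h6 := h (A'.inverse (grd A' P))
  rw [inv_apply hA'] at h6
  have h7 : ‖grd A' P‖ ^ 2 ≤ ‖grd A P‖ * (c * ‖grd A' P‖) := by
    rw [h3]
    exact h4.trans (mul_le_mul_of_nonneg_left h6 (norm_nonneg _))
  nlinarith

end Pool.Agent.L7h16.AM
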