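import Pool.Agent.L7h16.AM.Lin
import Pool.Agent.Y264.QR.All
import Pool.Agent.Results.MP_a825e8_mp.SurfacesLimitStatistics

/-! The eigenvalues of one metric. -/

set_option autoImplicit false

open Set Filter Topology MeasureTheory
open scoped Real ContDiff
open Pool.Agent.Y262.QE Pool.Agent.Y264.QR

noncomputable section

namespace Pool.Agent.L7h16.AM

open Pool.Agent.Results.MP_a825e8_mp.SurfacesLimitStatistics (IsEigenbasis)

variable {M : Type} [MetricSpace M] [CompactSpace M] [MeasurableSpace M] [BorelSpace M]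

omit [CompactSpace M] [MeasurableSpace M] [BorelSpace M] in
lemma conf_zero (D : Data M) : (D.conf fun x => Real.exp ((0 : C(M, ℝ)) x)) = D := by
  unfold Data.conf
  simp

omit [CompactSpace M] [BorelSpace M] in
lemma wm_zero (μ : Measure M) : (wm μ fun x => Real.exp ((0 : C(M, ℝ)) x)) = μ := by
  unfold wm
  simp

/-- the form domain, the Dirichlet form, the `L²` form, their eigenvalues and Weyl's law -/
structure Pk (D : Data M) (μ : Measure M) (a b : HF D μ →L[ℝ] HF D μ →L[ℝ] ℝ) : Prop where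
  av : ∀ v, a v v = ‖v.1.snd‖ ^ 2
  bv : ∀ v, b v v = ‖v.1.fst‖ ^ 2
  fm : Fm a b
  eg : ∀ (u : ℕ → M → ℝ) (lam : ℕ → ℝ), IsEigenbasis D μ u lam → ∃ e : ℕ → HF D μ, Eg a b e lam
  weyl : Tendsto (fun j : ℕ => Ev a b j / (j + 1)) atTop (𝓝 (4 * π / μ.real univ))

theorem pack [Nonempty M] {D : Data M} {μ : Measure M} (hD : D.IsSurf μ) :
    (∃ a b, Pk D μ a b) ∧ ∃ (u : ℕ → M → ℝ) (lam : ℕ → ℝ), IsEigenbasis D μ u lam := by
  obtain ⟨hf, -⟩ := tFin M μ D hD
  have := hf
  obtain ⟨i, a, hSf, hi, ha⟩ := tPackF M μ D hD inferInstance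
  obtain ⟨b, hB, hF, -⟩ := tFm M μ (HF D μ) i a hSf
  have hW := tWl M μ D hD inferInstance i a b hSf hi ha hB
  refine ⟨⟨a, b 0, ?_, ?_, hF 0, ?_, ?_⟩, ?_⟩
  · intro v
    rw [ha v v, real_inner_self_eq_norm_sq]
  · intro v
    rw [hB 0 v v, hi v, nsq]
    refine integral_congr_ae (Eventually.of_forall fun x => ?_)
    simp only [ContinuousMap.zero_apply, Real.exp_zero, one_mul]
    ring
  · intro u lam hu
    obtain ⟨e, -, he⟩ := tBr M μ D hD i a b hSf hi ha hB hF 0 u lam (by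
      rw [conf_zero, wm_zero]
      exact ⟨hu.eig, hu.mono, hu.orth, hu.total⟩)
    exact ⟨e, he⟩
  · have h := hW 0
    simpa using h
  · obtain ⟨u, lam, h⟩ := tEx M μ D hD inferInstance 0
    rw [conf_zero, wm_zero] at h
    exact ⟨u, lam, h.eig, h.mono, h.orth, h.total⟩

end Pool.Agent.L7h16.AM
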